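import Pool.Agent.Y748.SR.Stm7
import Pool.Agent.Y587.SR.Auto
import Pool.Agent.Y51.SR.Onep

/-!
# Project SR (helper748): closed and half-open intervals; elementary properties of the limits
(job 5028)
-/

set_option autoImplicit false

open Finset Filter Topology MeasureTheory

namespace Pool.Agent.Y434.SR

open Pool.Agent.Y748.SR Pool.Agent.Y587.SR Pool.Agent.Y948.SRML

/-- the set of tuples, half-open intervals -/
def So (u : ℕ → ℝ) {k : ℕ} (a b : Fin k → ℝ) (x : ℝ) : Set (Fin k → ℕ) :=
  {n : Fin k → ℕ | Function.Injective n ∧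
    ∀ i, 1 ≤ n i ∧ u (n i) - x ∈ Set.Ioc (a i) (b i)}

/-- the number of tuples, half-open intervals -/
noncomputable def Fo (u : ℕ → ℝ) {k : ℕ} (a b : Fin k → ℝ) (x : ℝ) : ℝ :=
  ((So u a b x).ncard : ℝ)

theorem corO_Fo (u : ℕ → ℝ) (k N : ℕ) (a b : Fin k → ℝ) :
    corO u k N a b = (1 / N : ℝ) * ∫ x in (0 : ℝ)..N, Fo u a b x := rfl

theorem Fo_nonneg (u : ℕ → ℝ) {k : ℕ} (a b : Fin k → ℝ) (x : ℝ) : 0 ≤ Fo u a b x :=
  Nat.cast_nonneg _

theorem Fo_ae (u : ℕ → ℝ) {k : ℕ} (a b : Fin k → ℝ) : Fc u a b =ᵐ[volume] Fo u a b := by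
  have h1 : (⋃ i : Fin k, ⋃ n : ℕ, {u n - a i} : Set ℝ).Countable :=
    Set.countable_iUnion fun i => Set.countable_iUnion fun n => Set.countable_singleton _
  filter_upwards [h1.ae_notMem volume] with x hx
  unfold Fc Fo So
  congr 2
  ext n
  simp only [Set.mem_ofPred_eq, Set.mem_Icc, Set.mem_Ioc]
  refine and_congr_right fun _ => forall_congr' fun i => and_congr_right fun _ => ?_
  refine and_congr_left fun _ => ?_
  constructor
  · intro h
    refine lt_of_le_of_ne h fun he => hx ?_
    rw [Set.mem_iUnion]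
    refine ⟨i, ?_⟩
    rw [Set.mem_iUnion]
    refine ⟨n i, ?_⟩
    rw [Set.mem_singleton_iff]
    linarith
  · exact le_of_lt

theorem Fo_int {u : ℕ → ℝ} (hu : Sq u) {k : ℕ} (a b : Fin k → ℝ) (A B : ℝ) :
    IntervalIntegrable (Fo u a b) volume A B :=
  (Fc_int hu a b A B).congr_ae (ae_restrict_of_ae (Fo_ae u a b))

theorem t_CO : S_CO := by
  intro u _ k N a b
  rw [corr_Fc, corO_Fo]
  congr 1
  refine intervalIntegral.integral_congr_ae ?_
  filter_upwards [Fo_ae u a b] with x hx _
  exact hx

theorem So_fin {u : ℕ → ℝ} (hu : Sq u) {k : ℕ} (a b : Fin k → ℝ) (x : ℝ) :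
    (So u a b x).Finite := by
  classical
  obtain ⟨m, hm⟩ : ∃ m : ℝ, ∀ i, b i ≤ m := by
    obtain ⟨m, hm⟩ := (Set.finite_range b).bddAbove
    exact ⟨m, fun i => hm ⟨i, rfl⟩⟩
  refine (Finset.finite_toSet (Fintype.piFinset fun _ : Fin k => ix hu (x + m))).subset ?_
  rintro n ⟨-, hn⟩
  rw [Finset.mem_coe, Fintype.mem_piFinset]
  intro i
  rw [mem_ix]
  obtain ⟨h1, h2, h3⟩ := hn i
  have h4 := hm i
  exact ⟨h1, by linarith⟩

theorem Fo_add {u : ℕ → ℝ} (hu : Sq u) {k : ℕ} (a b : Fin k → ℝ) (i : Fin k) (c : ℝ)
    (h1 : a i < c) (h2 : c < b i) (x : ℝ) :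
    Fo u a b x = Fo u a (Function.update b i c) x + Fo u (Function.update a i c) b x := by
  unfold Fo
  have h3 : So u a b x = So u a (Function.update b i c) x ∪ So u (Function.update a i c) b x := by
    ext n
    unfold So
    simp only [Set.mem_union, Set.mem_ofPred_eq, Set.mem_Ioc]
    constructor
    · rintro ⟨hn, h⟩
      by_cases hc : u (n i) - x ≤ c
      · refine Or.inl ⟨hn, fun j => ?_⟩
        obtain ⟨g1, g2, g3⟩ := h j
        by_cases hj : j = i
        · subst hj
          rw [Function.update_self]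
          exact ⟨g1, g2, hc⟩
        · rw [Function.update_of_ne hj]
          exact ⟨g1, g2, g3⟩
      · refine Or.inr ⟨hn, fun j => ?_⟩
        obtain ⟨g1, g2, g3⟩ := h j
        by_cases hj : j = i
        · subst hj
          rw [Function.update_self]
          exact ⟨g1, not_le.1 hc, g3⟩
        · rw [Function.update_of_ne hj]
          exact ⟨g1, g2, g3⟩
    · rintro (⟨hn, h⟩ | ⟨hn, h⟩)
      · refine ⟨hn, fun j => ?_⟩
        obtain ⟨g1, g2, g3⟩ := h j
        by_cases hj : j = i
        · subst hj
          rw [Function.update_self] at g3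
          exact ⟨g1, g2, g3.trans h2.le⟩
        · rw [Function.update_of_ne hj] at g3
          exact ⟨g1, g2, g3⟩
      · refine ⟨hn, fun j => ?_⟩
        obtain ⟨g1, g2, g3⟩ := h j
        by_cases hj : j = i
        · subst hj
          rw [Function.update_self] at g2
          exact ⟨g1, h1.trans g2, g3⟩
        · rw [Function.update_of_ne hj] at g2
          exact ⟨g1, g2, g3⟩
  have h4 : Disjoint (So u a (Function.update b i c) x) (So u (Function.update a i c) b x) := by
    rw [Set.disjoint_left]
    rintro n ⟨-, g1⟩ ⟨-, g2⟩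
    have g3 := (g1 i).2.2
    have g4 := (g2 i).2.1
    rw [Function.update_self] at g3 g4
    linarith
  rw [h3, Set.ncard_union_eq h4 (So_fin hu _ _ _) (So_fin hu _ _ _)]
  push_cast
  rfl

theorem corO_add {u : ℕ → ℝ} (hu : Sq u) {k : ℕ} (N : ℕ) (a b : Fin k → ℝ) (i : Fin k) (c : ℝ)
    (h1 : a i < c) (h2 : c < b i) :
    corO u k N a b = corO u k N a (Function.update b i c) +
      corO u k N (Function.update a i c) b := by
  rw [corO_Fo, corO_Fo, corO_Fo, ← mul_add,
    ← intervalIntegral.integral_add (Fo_int hu _ _ _ _) (Fo_int hu _ _ _ _)]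
  congr 1
  exact intervalIntegral.integral_congr fun x _ => Fo_add hu a b i c h1 h2 x

theorem corO_zero (u : ℕ → ℝ) {N : ℕ} (hN : 0 < N) (a b : Fin 0 → ℝ) : corO u 0 N a b = 1 := by
  have h1 : ∀ x, Fo u a b x = 1 := by
    intro x
    unfold Fo
    have h2 : So u a b x = {Fin.elim0} := by
      ext n
      rw [Set.mem_singleton_iff]
      constructor
      · intro _
        exact Subsingleton.elim _ _
      · intro _
        exact ⟨fun i => i.elim0, fun i => i.elim0⟩
    rw [h2, Set.ncard_singleton, Nat.cast_one]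
  rw [corO_Fo]
  simp only [h1]
  rw [intervalIntegral.integral_const, smul_eq_mul, mul_one, sub_zero]
  have : (N : ℝ) ≠ 0 := by exact_mod_cast hN.ne'
  field_simp

theorem t_MF : S_MF := by
  intro u hu I l N m hl hL
  obtain ⟨hN, hlim⟩ := hL
  refine ⟨fun a b => ?_, fun a b hab => ?_, fun k a b hD => ?_, fun k a b t hD => ?_,
    fun k a b i c hD h1 h2 => ?_⟩
  · have hD : Dis a b := ⟨fun i => i.elim0, fun i => i.elim0⟩
    refine tendsto_nhds_unique (hlim 0 a b hD) ?_
    refine tendsto_const_nhds.congr' ?_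
    filter_upwards [hN.eventually (eventually_gt_atTop 0)] with j hj
    exact (corO_zero u hj a b).symm
  · have hD : Dis a b := by
      refine ⟨fun i => ?_, fun i j hij => ?_⟩
      · rw [Fin.fin_one_eq_zero i]
        exact hab
      · exact absurd hij (by rw [Subsingleton.elim i j]; exact lt_irrefl _)
    refine tendsto_nhds_unique (hlim 1 a b hD) ?_
    have h1 := Pool.Agent.Y51.SR.t_ONEP u hu I l N hN (a 0) (b 0) hab.le
    have ha : (fun _ : Fin 1 => a 0) = a := by
      funext i
      rw [Fin.fin_one_eq_zero i]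
    have hb : (fun _ : Fin 1 => b 0) = b := by
      funext i
      rw [Fin.fin_one_eq_zero i]
    rw [ha, hb] at h1
    exact h1.congr fun j => t_CO u hu 1 (N j) a b
  · refine ge_of_tendsto' (hlim k a b hD) fun j => ?_
    rw [corO_Fo]
    refine mul_nonneg (by positivity) ?_
    exact intervalIntegral.integral_nonneg (Nat.cast_nonneg _) fun x _ => Fo_nonneg u a b x
  · have hD' : Dis (fun i => a i + t) (fun i => b i + t) :=
      ⟨fun i => by have := hD.1 i; simp only; linarith,
        fun i j hij => by have := hD.2 i j hij; simp only; linarith⟩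
    have h1 := (corr_shift hu a b t).comp hN
    have h2 := (hlim k a b hD).add h1
    rw [add_zero] at h2
    refine tendsto_nhds_unique (hlim k _ _ hD') (h2.congr fun j => ?_)
    simp only [Function.comp]
    rw [t_CO u hu, t_CO u hu]
    ring
  · have hD1 : Dis a (Function.update b i c) := by
      refine ⟨fun j => ?_, fun j j' hj => ?_⟩
      · by_cases h : j = i
        · subst h
          rw [Function.update_self]
          exact h1
        · rw [Function.update_of_ne h]
          exact hD.1 j
      · by_cases h : j = i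
        · subst h
          rw [Function.update_self]
          exact h2.le.trans (hD.2 j j' hj)
        · rw [Function.update_of_ne h]
          exact hD.2 j j' hj
    have hD2 : Dis (Function.update a i c) b := by
      refine ⟨fun j => ?_, fun j j' hj => ?_⟩
      · by_cases h : j = i
        · subst h
          rw [Function.update_self]
          exact h2
        · rw [Function.update_of_ne h]
          exact hD.1 j
      · by_cases h : j' = i
        · subst h
          rw [Function.update_self]
          exact (hD.2 j j' hj).trans h1.le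
        · rw [Function.update_of_ne h]
          exact hD.2 j j' hj
    have h3 := (hlim k _ _ hD1).add (hlim k _ _ hD2)
    exact tendsto_nhds_unique (hlim k a b hD)
      (h3.congr fun j => (corO_add hu (N j) a b i c h1 h2).symm)

end Pool.Agent.Y434.SR
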